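import Mathlib

namespace Pool.Agent.Results.MP_5b3c48_co.NotUnique

open Finset SimpleGraph

/-- The edge blow-up `H³`: each edge `u v` gets a new vertex joined to `u` and `v`. -/
def blowup {V : Type} (H : SimpleGraph V) : SimpleGraph (V ⊕ H.edgeSet) where
  Adj
    | .inl u, .inl v => H.Adj u v
    | .inl u, .inr e => u ∈ e.1
    | .inr e, .inl u => u ∈ e.1
    | .inr _, .inr _ => False
  symm := ⟨by rintro (a | a) (b | b) h <;> first | exact h.symm | exact h⟩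
  loopless := ⟨by rintro (a | a) h <;> first | exact h.ne rfl | exact h⟩

/-- The number of triangles. -/
noncomputable def tri {n : ℕ} (G : SimpleGraph (Fin n)) : ℕ := (G.cliqueSet 3).ncard

/-- `G` is extremal for `ex(n, K₃, F)`. -/
def Extremal {W : Type} (F : SimpleGraph W) {n : ℕ} (G : SimpleGraph (Fin n)) : Prop :=
  ¬ F ⊑ G ∧ ∀ G' : SimpleGraph (Fin n), ¬ F ⊑ G' → tri G' ≤ tri G

/-- `G` is the unique extremal graph, up to isomorphism. -/
def UniqueExtremal {W : Type} (F : SimpleGraph W) {n : ℕ} (G : SimpleGraph (Fin n)) : Prop :=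
  Extremal F G ∧ ∀ G' : SimpleGraph (Fin n), Extremal F G' → Nonempty (G' ≃g G)

/-- The vertex `0` joined to the complete bipartite graph with parts `{1, …, a}` and
`{a + 1, …, n - 1}`, plus the edge `{1, 2}`. -/
def J (n a : ℕ) : SimpleGraph (Fin n) where
  Adj u v := u.val ≠ v.val ∧ (u.val = 0 ∨ v.val = 0 ∨ (u.val ≤ a ∧ a < v.val) ∨
    (v.val ≤ a ∧ a < u.val) ∨ (u.val = 1 ∧ v.val = 2) ∨ (u.val = 2 ∧ v.val = 1))
  symm := ⟨fun _ _ h => by omega⟩
  loopless := ⟨fun _ h => h.1 rfl⟩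

/-- `H⁺(2m + 1, 2, 2) = K₁ + K_{m,m}` with one more edge inside a part. -/
def Hplus (m : ℕ) : SimpleGraph (Fin (2 * m + 1)) := J (2 * m + 1) m

theorem J_adj {n a : ℕ} {u v : Fin n} : (J n a).Adj u v ↔ u.val ≠ v.val ∧ (u.val = 0 ∨ v.val = 0 ∨
    (u.val ≤ a ∧ a < v.val) ∨ (v.val ≤ a ∧ a < u.val) ∨ (u.val = 1 ∧ v.val = 2) ∨
    (u.val = 2 ∧ v.val = 1)) := Iff.rfl

theorem tri_eq {n : ℕ} (G : SimpleGraph (Fin n)) : tri G = {p : Fin n × Fin n × Fin n |
    p.1 < p.2.1 ∧ p.2.1 < p.2.2 ∧ G.Adj p.1 p.2.1 ∧ G.Adj p.1 p.2.2 ∧ G.Adj p.2.1 p.2.2}.ncard := by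
  symm
  refine Set.ncard_congr (fun p _ => {p.1, p.2.1, p.2.2}) ?_ ?_ ?_
  · rintro ⟨a, b, c⟩ ⟨-, -, h1, h2, h3⟩
    exact is3Clique_triple_iff.mpr ⟨h1, h2, h3⟩
  · rintro ⟨a, b, c⟩ ⟨a', b', c'⟩ ⟨h1, h2, -⟩ ⟨h3, h4, -⟩ h
    have k := fun x => (Finset.ext_iff.mp h x)
    have k1 := (k a).mp (by simp)
    have k2 := (k b).mp (by simp)
    have k3 := (k c).mp (by simp)
    have k4 := (k a').mpr (by simp)
    have k5 := (k c').mpr (by simp)
    simp only [Finset.mem_insert, Finset.mem_singleton, Prod.mk.injEq] at *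
    omega
  · intro s hs
    obtain ⟨a, b, c, h1, h2, h3, rfl⟩ := is3Clique_iff.mp hs
    have n1 := h1.ne
    have n2 := h2.ne
    have n3 := h3.ne
    rcases lt_or_gt_of_ne n1 with l1 | l1 <;> rcases lt_or_gt_of_ne n2 with l2 | l2 <;>
      rcases lt_or_gt_of_ne n3 with l3 | l3
    · exact ⟨(a, b, c), ⟨l1, l3, h1, h2, h3⟩, rfl⟩
    · exact ⟨(a, c, b), ⟨l2, l3, h2, h1, h3.symm⟩, by ext; simp; tauto⟩
    · omega
    · exact ⟨(c, a, b), ⟨l2, l1, h2.symm, h3.symm, h1⟩, by ext; simp; tauto⟩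
    · exact ⟨(b, a, c), ⟨l1, l2, h1.symm, h3, h2⟩, by ext; simp; tauto⟩
    · omega
    · exact ⟨(b, c, a), ⟨l3, l2, h3, h1.symm, h2.symm⟩, by ext; simp; tauto⟩
    · exact ⟨(c, b, a), ⟨l3, l1, h3.symm, h2.symm, h1.symm⟩, by ext; simp; tauto⟩

theorem tri_J (n a b : ℕ) (hn : n = a + b + 1) (ha : 2 ≤ a) : tri (J n a) = a * b + b + 1 := by
  rw [tri_eq]
  let S : Finset (ℕ × ℕ × ℕ) := insert (0, 1, 2)
    (({0} ×ˢ Ioc 0 a ×ˢ Ioc a (a + b)) ∪ ({1} ×ˢ {2} ×ˢ Ioc a (a + b)))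
  have hS : S.card = a * b + b + 1 := by
    rw [Finset.card_insert_of_notMem (by simp; omega), Finset.card_union_of_disjoint]
    · simp
    · rw [Finset.disjoint_left]
      rintro ⟨x, y, z⟩ h1 h2
      simp only [Finset.mem_product, Finset.mem_singleton] at h1 h2
      omega
  rw [← hS, ← Set.ncard_coe_finset]
  refine Set.ncard_congr (fun p _ => (p.1.val, p.2.1.val, p.2.2.val)) ?_ ?_ ?_
  · rintro ⟨x, y, z⟩ ⟨h1, h2, h3, h4, h5⟩
    have := z.2
    simp only [J_adj, Fin.lt_def] at h1 h2 h3 h4 h5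
    simp only [S, Finset.mem_coe, Finset.mem_insert, Finset.mem_union, Finset.mem_product,
      Finset.mem_singleton, Finset.mem_Ioc, Prod.mk.injEq]
    omega
  · rintro ⟨x, y, z⟩ ⟨x', y', z'⟩ - - h
    simp only [Prod.mk.injEq] at h ⊢
    omega
  · rintro ⟨x, y, z⟩ h
    simp only [S, Finset.mem_coe, Finset.mem_insert, Finset.mem_union, Finset.mem_product,
      Finset.mem_singleton, Finset.mem_Ioc, Prod.mk.injEq] at h
    refine ⟨(⟨x, by omega⟩, ⟨y, by omega⟩, ⟨z, by omega⟩), ?_, rfl⟩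
    simp only [Set.mem_ofPred_eq, J_adj, Fin.lt_def]
    omega

theorem core {W : Type} {F : SimpleGraph W} {n a : ℕ} (h : F ⊑ J n a) (x y w : Fin 4 → W)
    (h1 : ∀ i, F.Adj (x i) (y i) ∧ F.Adj (x i) (w i) ∧ F.Adj (y i) (w i))
    (h2 : ∀ v, ∀ i : Fin 4, (v = x i ∨ v = y i ∨ v = w i) →
      ¬ (v = x (i + 2) ∨ v = y (i + 2) ∨ v = w (i + 2)))
    (h3 : ∀ v v', ∀ i j : Fin 4, i ≠ j → (v = x i ∨ v = y i ∨ v = w i) →
      (v = x j ∨ v = y j ∨ v = w j) → (v' = x i ∨ v' = y i ∨ v' = w i) →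
      (v' = x j ∨ v' = y j ∨ v' = w j) → v = v') : False := by
  obtain ⟨c⟩ := h
  have hc : ∀ v v', (c v).val = (c v').val → v = v' := fun v v' h => c.injective (Fin.ext h)
  have key : ∀ i, (∃ v, (v = x i ∨ v = y i ∨ v = w i) ∧ (c v).val = 0) ∨
      ∃ v v', (v = x i ∨ v = y i ∨ v = w i) ∧ (v' = x i ∨ v' = y i ∨ v' = w i) ∧
        (c v).val = 1 ∧ (c v').val = 2 := by
    intro i
    have a1 : (J n a).Adj (c (x i)) (c (y i)) := c.toHom.map_rel (h1 i).1
    have a2 : (J n a).Adj (c (x i)) (c (w i)) := c.toHom.map_rel (h1 i).2.1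
    have a3 : (J n a).Adj (c (y i)) (c (w i)) := c.toHom.map_rel (h1 i).2.2
    rw [J_adj] at a1 a2 a3
    simp only [or_and_right, exists_or, exists_eq_left, and_or_left, exists_and_left]
    omega
  have two : ∀ i, ∃ j, (j = i ∨ j = i + 2) ∧
      ∃ v v', (v = x j ∨ v = y j ∨ v = w j) ∧ (v' = x j ∨ v' = y j ∨ v' = w j) ∧
        (c v).val = 1 ∧ (c v').val = 2 := by
    intro i
    rcases key i with ⟨v, a1, a2⟩ | h
    · rcases key (i + 2) with ⟨v', a3, a4⟩ | h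
      · exact absurd (hc v v' (a2.trans a4.symm) ▸ a3) (h2 v i a1)
      · exact ⟨i + 2, Or.inr rfl, h⟩
    · exact ⟨i, Or.inl rfl, h⟩
  obtain ⟨i, hi, v, v', a1, a2, a3, a4⟩ := two 0
  obtain ⟨j, hj, u, u', b1, b2, b3, b4⟩ := two 1
  obtain rfl := hc _ _ (a3.trans b3.symm)
  obtain rfl := hc _ _ (a4.trans b4.symm)
  have := h3 v v' i j (by rcases hi with rfl | rfl <;> rcases hj with rfl | rfl <;> decide)
    a1 b1 a2 b2
  rw [this] at a3
  omega

theorem free_gen {V : Type} (H : SimpleGraph V) (x y : Fin 4 → V) (h1 : ∀ i, H.Adj (x i) (y i))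
    (h2 : ∀ i, x i ≠ x (i + 2) ∧ x i ≠ y (i + 2) ∧ y i ≠ x (i + 2) ∧ y i ≠ y (i + 2))
    (h3 : ∀ i j, i ≠ j → s(x i, y i) ≠ s(x j, y j)) (n a : ℕ) : ¬ blowup H ⊑ J n a := by
  intro h
  refine core h (fun i => .inl (x i)) (fun i => .inl (y i))
    (fun i => .inr ⟨s(x i, y i), h1 i⟩) (fun i => ⟨h1 i, Sym2.mem_mk_left _ _,
      Sym2.mem_mk_right _ _⟩) ?_ ?_
  · intro v i
    have := h2 i
    have := h3 i (i + 2) (by fin_cases i <;> decide)
    rintro (rfl | rfl | rfl) <;> simp_all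
  · intro v v' i j hij
    have a1 := h3 i j hij
    have a2 := (h1 j).ne
    have a3 := (h1 i).ne
    rw [Ne, Sym2.eq_iff] at a1
    rintro (rfl | rfl | rfl) b1 (rfl | rfl | rfl) b2 <;>
      simp only [Sum.inl.injEq, Sum.inr.injEq, reduceCtorEq, or_false, false_or, Subtype.mk.injEq,
        Sym2.eq_iff] at b1 b2 ⊢ <;> grind

theorem main {W : Type} (F : SimpleGraph W) (hF : ∀ n a, ¬ F ⊑ J n a) (m : ℕ) (hm : 3 ≤ m) :
    ¬ UniqueExtremal F (Hplus m) := by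
  rintro ⟨h1, h2⟩
  obtain ⟨m, rfl⟩ : ∃ k, m = k + 1 := ⟨m - 1, by omega⟩
  have e1 : tri (Hplus (m + 1)) = tri (J (2 * (m + 1) + 1) m) := by
    rw [Hplus, tri_J _ (m + 1) (m + 1) (by ring) (by omega), tri_J _ m (m + 2) (by ring) (by omega)]
    ring
  obtain ⟨e⟩ := h2 (J (2 * (m + 1) + 1) m) ⟨hF _ _, fun G' hG' => e1 ▸ h1.2 G' hG'⟩
  let v : Fin (2 * (m + 1) + 1) := Fin.last _
  have d1 : ((J (2 * (m + 1) + 1) m).neighborSet v).ncard ≤ m + 1 := by
    have := Set.ncard_le_ncard_of_injOn (s := (J (2 * (m + 1) + 1) m).neighborSet v)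
      (t := (range (m + 1) : Finset ℕ)) Fin.val (fun u hu => by
        have : (J (2 * (m + 1) + 1) m).Adj v u := hu
        simp only [J_adj, v, Fin.val_last] at this
        simp only [Finset.coe_range, Set.mem_Iio]
        omega) Fin.val_injective.injOn
    simpa using this
  have d2 : ∀ u, m + 2 ≤ ((Hplus (m + 1)).neighborSet u).ncard := by
    intro u
    have := Set.ncard_le_ncard_of_injOn (s := (Set.univ : Set (Fin (m + 2))))
      (t := (Hplus (m + 1)).neighborSet u)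
      (fun i => if u.val = 0 then ⟨i.val + 1, by omega⟩ else if m + 1 < u.val then ⟨i.val, by omega⟩
        else if i.val = 0 then ⟨0, by omega⟩ else ⟨i.val + m + 1, by omega⟩) (fun i _ => by
        show (J _ _).Adj _ _
        rw [J_adj]
        have := i.2
        split_ifs <;> dsimp only <;> omega) (fun i _ j _ h => by
        simp only at h
        split_ifs at h <;> simp only [Fin.mk.injEq] at h <;> omega)
    simpa using this
  have d3 : ((J (2 * (m + 1) + 1) m).neighborSet v).ncard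
      = ((Hplus (m + 1)).neighborSet (e v)).ncard :=
    Set.ncard_congr' (e.mapNeighborSet v)
  have := d2 (e v)
  omega

theorem result (m : ℕ) (hm : 3 ≤ m) :
    ¬ UniqueExtremal (blowup (cycleGraph 4)) (Hplus m) ∧
      ¬ UniqueExtremal (blowup (pathGraph 5)) (Hplus m) :=
  ⟨main _ (free_gen _ (fun i => i) (fun i => i + 1) (by decide) (by decide) (by decide)) m hm,
    main _ (free_gen _ Fin.castSucc Fin.succ (by simp [pathGraph_adj]) (by decide) (by decide))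
      m hm⟩

end Pool.Agent.Results.MP_5b3c48_co.NotUnique
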